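import Pool.Agent.H8.Polymer7

open MeasureTheory ProbabilityTheory Filter Topology Pool.Agent.H8.Polymer

namespace Pool.Agent.Results.MP_8c378f_pr.CriticalBetaZero

universe u v w

lemma root_pos {c : List ℕ → ℕ} (h : {v | IsVertex c v}.Infinite) : 0 < c [] := by
  rw [Nat.pos_iff_ne_zero]
  intro h0
  apply h
  apply (Set.finite_singleton ([] : List ℕ)).subset
  intro v hv
  have hv' : IsVertex c v := hv
  show v = []
  clear hv
  induction v with
  | nil => rfl
  | cons i v ih =>
    obtain ⟨h1, h2⟩ := hv'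
    have := ih h1
    subst this
    omega

/-- **Theorem.** Let `N v` (`v` a word) be i.i.d. with mean `m > 1`.  For almost every
realisation for which the Galton–Watson tree is infinite, for every environment and every
realisation of the `m`-biased random walk on the tree, the partition functions `W_n(β)` tend to
zero almost surely for all `β > 0`, and the critical inverse temperature `β_c` is `0`. -/
theorem result {Θ : Type u} [MeasurableSpace Θ] (Q : Measure Θ) [IsProbabilityMeasure Q]
    (N : List ℕ → Θ → ℕ) (hN : ∀ v, Measurable (N v)) (hI : iIndepFun N Q)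
    (hD : ∀ v, IdentDistrib (N v) (N []) Q Q) (m : ℝ) (hm : 1 < m)
    (hmean : ∫ θ, (N [] θ : ℝ) ∂Q = m) :
    ∀ᵐ θ ∂Q, {x | IsVertex (fun x => N x θ) x}.Infinite →
      ∀ (Ω : Type v) [MeasurableSpace Ω] (P : Measure Ω) [IsProbabilityMeasure P]
        (ω : ℕ → List ℕ → Ω → ℝ), IsEnvironment P ω →
      ∀ (Ξ : Type w) [MeasurableSpace Ξ] (ν : Measure Ξ) [IsProbabilityMeasure ν]
        (S : ℕ → Ξ → List ℕ), IsBiasedWalk m (fun x => N x θ) ν S →
      (∀ β : ℝ, 0 < β → ∀ᵐ e ∂P, Tendsto (fun n => polymerW P ω ν S β n e) atTop (𝓝 0)) ∧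
        criticalBeta P ω ν S = 0 := by
  have hm0 : 0 < m := by linarith
  have hint : Integrable (fun θ => (N [] θ : ℝ)) Q := by
    by_contra h
    rw [integral_undef h] at hmean
    linarith
  have hmean' : ∫⁻ θ, (N [] θ : ENNReal) ∂Q = ENNReal.ofReal m := by
    rw [← hmean, ofReal_integral_eq_lintegral_ofReal hint (ae_of_all _ fun θ => Nat.cast_nonneg _)]
    congr 1
    funext θ
    rw [ENNReal.ofReal_natCast]
  filter_upwards [gw_average hN hI hD hm0 hmean'] with θ hθ
  obtain ⟨C, hC, hfreq⟩ := hθ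
  intro hinf Ω _ P _ ω hE Ξ _ ν _ S hS
  have hc : 0 < (fun x => N x θ) ([] : List ℕ) := root_pos hinf
  have hW : ∀ β : ℝ, 0 < β →
      ∀ᵐ e ∂P, Tendsto (fun n => polymerW P ω ν S β n e) atTop (𝓝 0) := by
    intro β hβ
    have h1 := W_tendsto_zero (treeKern m (fun x => N x θ) hm0 hc) (envNoise hE hβ.ne') []
      (tree_not_summable hm0 hc hC hfreq)
    filter_upwards [h1] with e he
    refine he.congr fun n => ?_
    exact (polymerW_eq hm0 hc hE hS hβ.ne' n e).symm
  refine ⟨hW, ?_⟩
  have hset : {β : ℝ | 0 ≤ β ∧ WeakDisorder P ω ν S β} = {0} := by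
    ext β
    simp only [Set.mem_ofPred_eq, Set.mem_singleton_iff]
    constructor
    · rintro ⟨h0, hwd⟩
      by_contra hne
      have hβ : 0 < β := lt_of_le_of_ne h0 (Ne.symm hne)
      obtain ⟨e, ⟨w, hw, h1⟩, h2⟩ := (hwd.and (hW β hβ)).exists
      exact hw.ne' (tendsto_nhds_unique h1 h2)
    · rintro rfl
      refine ⟨le_rfl, ?_⟩
      refine ae_of_all _ fun e => ⟨1, one_pos, ?_⟩
      have : (fun n => polymerW P ω ν S 0 n e) = fun _ => 1 := by
        funext n
        unfold polymerW logMoment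
        simp
      rw [this]
      exact tendsto_const_nhds
  unfold criticalBeta
  rw [hset, csSup_singleton]

end Pool.Agent.Results.MP_8c378f_pr.CriticalBetaZero
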